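import Pool.Agent.Helper65.CG.Defs2
import Pool.Agent.Helper62.UB.Rand
import Pool.Agent.Helper79.UB.Cover

/-!
# Project UB, module UB-C5: seeds
-/

set_option autoImplicit false

namespace Pool.Agent.Helper65.CG

open scoped Classical
open Pool.Agent.Helper65.CliqueGame

variable {n q m : ℕ}

/-- Strongly related slots have many seeds. -/
theorem h28_K_le_Hs {ℓ : Sym2 (Fin n) → ℕ} {Z : Fin q → Fin n} {F : Finset (Fin q)} {K : ℕ}
    {i k : Fin q} (h : Str ℓ Z F K i k) : K ≤ (Hs ℓ Z F i k).card := by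
  refine h.2.trans ?_
  have hex : ∀ a ∈ RN ℓ Z F i k, ∃ h ∈ F, h ≠ i ∧ h ≠ k ∧ lk ℓ Z i h = a := by
    intro a ha
    unfold RN at ha
    rw [Finset.mem_filter] at ha
    exact ha.2.2.1
  have hsub : RN ℓ Z F i k ⊆ (Hs ℓ Z F i k).image (fun h => lk ℓ Z i h) := by
    intro a ha
    have ha' := ha
    unfold RN at ha'
    rw [Finset.mem_filter] at ha'
    obtain ⟨_, ha2, ⟨h₁, hh₁, h₁i, h₁k, he₁⟩, ⟨h₂, hh₂, h₂i, h₂k, he₂⟩⟩ := ha'
    rw [Finset.mem_image]
    refine ⟨h₁, ?_, he₁⟩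
    unfold Hs
    rw [Finset.mem_filter]
    refine ⟨hh₁, h₁i, h₁k, ?_, h₂, hh₂, ?_⟩
    · rw [he₁]; exact ha2
    · rw [he₂, he₁]
  exact (Finset.card_le_card hsub).trans Finset.card_image_le

theorem seeds {ℓ : Sym2 (Fin n) → ℕ} (hℓ : Lab m ℓ) {Z : Fin q → Fin n}
    {F : Finset (Fin q)} {μ K : ℕ} (hK : 2 * μ < K) {ε : ℝ} (hε : 0 < ε) (hε1 : ε < 1) :
    ∃ S ⊆ F, ∃ G₁ ⊆ F \ Mt ℓ Z F μ, (S.card : ℝ) ≤ 4 * ε * q ∧
      ((((F \ Mt ℓ Z F μ) \ G₁).card : ℕ) : ℝ) ≤ 8 * μ * (1 - ε) ^ K * q ∧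
      ∀ i ∈ G₁, ∀ k ∈ G₁, Str ℓ Z F K i k → ∃ h ∈ S, h ∈ Hs ℓ Z F i k := by
  set E := F \ Mt ℓ Z F μ with hE
  have hEF : E ⊆ F := Finset.sdiff_subset
  have hFq : F.card ≤ q := by
    have := Finset.card_le_univ F
    simpa using this
  set T : Finset (Fin q × Fin q) := (E ×ˢ E).filter (fun p => Str ℓ Z F K p.1 p.2) with hT
  obtain ⟨S, hSF, hScard, hSbad⟩ := rand_hit F T (fun p => Hs ℓ Z F p.1 p.2) (K := K) hε hε1 (by
    intro p hp
    rw [hT, Finset.mem_filter] at hp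
    exact ⟨Finset.filter_subset _ _, h28_K_le_Hs hp.2⟩)
  set Bd := T.filter (fun p => Disjoint (Hs ℓ Z F p.1 p.2) S) with hBd
  -- number of the ordered strong pairs
  have hTcard : T.card ≤ 2 * μ * q := by
    have h1 : T.card ≤ ∑ i ∈ E, (F.filter (fun k => Str ℓ Z F K i k)).card := by
      have hmaps : ∀ p ∈ T, p.1 ∈ E := by
        intro p hp
        rw [hT, Finset.mem_filter, Finset.mem_product] at hp
        exact hp.1.1
      rw [Finset.card_eq_sum_card_fiberwise hmaps]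
      refine Finset.sum_le_sum fun i _ => ?_
      apply Finset.card_le_card_of_injOn (fun p : Fin q × Fin q => p.2)
      · intro p hp
        have hp' := Finset.mem_filter.mp (Finset.mem_coe.mp hp)
        have hp'' := hp'.1
        rw [hT, Finset.mem_filter, Finset.mem_product] at hp''
        rw [Finset.mem_coe, Finset.mem_filter]
        refine ⟨hEF hp''.1.2, ?_⟩
        have := hp''.2
        rwa [hp'.2] at this
      · intro p hp p' hp' h
        have h1 := (Finset.mem_filter.mp (Finset.mem_coe.mp hp)).2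
        have h2 := (Finset.mem_filter.mp (Finset.mem_coe.mp hp')).2
        exact Prod.ext (h1.trans h2.symm) h
    have h2 : ∑ i ∈ E, (F.filter (fun k => Str ℓ Z F K i k)).card ≤ ∑ _i ∈ E, 2 * μ := by
      refine Finset.sum_le_sum fun i hi => ?_
      rw [hE, Finset.mem_sdiff] at hi
      exact strong_deg hℓ hK hi.1 hi.2
    rw [Finset.sum_const, smul_eq_mul] at h2
    have h3 : E.card ≤ q := (Finset.card_le_card hEF).trans hFq
    calc T.card ≤ E.card * (2 * μ) := h1.trans h2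
      _ ≤ q * (2 * μ) := Nat.mul_le_mul_right _ h3
      _ = 2 * μ * q := by ring
  refine ⟨S, hSF, E \ Bd.image Prod.fst, Finset.sdiff_subset, ?_, ?_, ?_⟩
  · refine hScard.trans ?_
    have : (F.card : ℝ) ≤ q := by exact_mod_cast hFq
    exact mul_le_mul_of_nonneg_left this (by positivity)
  · have hsub : E \ (E \ Bd.image Prod.fst) ⊆ Bd.image Prod.fst := by
      intro x hx
      have hx' := Finset.mem_sdiff.mp hx
      by_contra h
      exact hx'.2 (Finset.mem_sdiff.mpr ⟨hx'.1, h⟩)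
    have h1 : (E \ (E \ Bd.image Prod.fst)).card ≤ Bd.card :=
      (Finset.card_le_card hsub).trans Finset.card_image_le
    have h2 : ((E \ (E \ Bd.image Prod.fst)).card : ℝ) ≤ (Bd.card : ℝ) := by exact_mod_cast h1
    refine h2.trans (hSbad.trans ?_)
    have h3 : (T.card : ℝ) ≤ 2 * μ * q := by exact_mod_cast hTcard
    have h4 : 0 ≤ 4 * (1 - ε) ^ K := by
      have : 0 ≤ 1 - ε := by linarith
      positivity
    calc 4 * (1 - ε) ^ K * (T.card : ℝ) ≤ 4 * (1 - ε) ^ K * (2 * μ * q) :=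
          mul_le_mul_of_nonneg_left h3 h4
      _ = 8 * μ * (1 - ε) ^ K * q := by ring
  · intro i hi k hk hstr
    by_contra hcon
    push Not at hcon
    rw [Finset.mem_sdiff] at hi hk
    apply hi.2
    rw [Finset.mem_image]
    refine ⟨(i, k), ?_, rfl⟩
    rw [hBd, Finset.mem_filter, hT, Finset.mem_filter, Finset.mem_product]
    refine ⟨⟨⟨hi.1, hk.1⟩, hstr⟩, ?_⟩
    rw [Finset.disjoint_left]
    intro h hh hS
    exact hcon h hS hh

end Pool.Agent.Helper65.CG
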